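import Pool.Agent.H2.NL.Basic
import Pool.Agent.H2.NL.Targets

/-!
Row TRC of nil_modules.
-/

set_option autoImplicit false

namespace Pool.Agent.H47.NL

open Matrix Pool.Agent.H2.NL Pool.Agent.H64.CC

theorem pf_TRC : T_TRC := by
  intro K _ _ V P _ _ _ _ F A hS g m u s h1 h2 h3 h4
  have hsg : sg K true = -1 := by simp [sg]
  have hV : ∀ p : V, sg K (F.o (Sum.inl p)) = -1 := fun p => by rw [hS.o_V p, hsg]
  refine ⟨?_, ?_⟩
  · unfold str2
    rw [Fintype.sum_prod_type, Fintype.sum_sum_type]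
    have e1 : ∀ p : V, ∑ y : V ⊕ P, sg K (F.o ((Sum.inl p : V ⊕ P), y).1) *
        sg K (F.o ((Sum.inl p : V ⊕ P), y).2) *
        g (Sum.inl p, y) (Sum.inl p, y) =
        -(s * ∑ y : P, sg K (F.o (Sum.inr y)) * m y y) := by
      intro p
      rw [Fintype.sum_sum_type]
      have e2 : ∑ q : V, sg K (F.o ((Sum.inl p : V ⊕ P), (Sum.inl q : V ⊕ P)).1) *
          sg K (F.o ((Sum.inl p : V ⊕ P), (Sum.inl q : V ⊕ P)).2) *
          g (Sum.inl p, Sum.inl q) (Sum.inl p, Sum.inl q) = 0 :=
        Finset.sum_eq_zero fun q _ => by rw [h1, mul_zero]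
      rw [e2, zero_add, Finset.mul_sum, ← Finset.sum_neg_distrib]
      refine Finset.sum_congr rfl fun y _ => ?_
      rw [h2]
      change sg K (F.o (Sum.inl p)) * sg K (F.o (Sum.inr y)) * (s * m y y) = _
      rw [hV]
      ring
    have e3 : ∀ z : P, ∑ y : V ⊕ P, sg K (F.o ((Sum.inr z : V ⊕ P), y).1) *
        sg K (F.o ((Sum.inr z : V ⊕ P), y).2) * g (Sum.inr z, y) (Sum.inr z, y) =
        -((Fintype.card V : K) * (s * (sg K (F.o (Sum.inr z)) * m z z))) +
          ∑ y : P, sg K (F.o (Sum.inr z)) * sg K (F.o (Sum.inr y)) * u (z, y) (z, y) := by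
      intro z
      rw [Fintype.sum_sum_type]
      congr 1
      · have e4 : ∀ q : V, sg K (F.o ((Sum.inr z : V ⊕ P), (Sum.inl q : V ⊕ P)).1) *
            sg K (F.o ((Sum.inr z : V ⊕ P), (Sum.inl q : V ⊕ P)).2) *
            g (Sum.inr z, Sum.inl q) (Sum.inr z, Sum.inl q) =
            -(s * (sg K (F.o (Sum.inr z)) * m z z)) := by
          intro q
          rw [h3]
          change sg K (F.o (Sum.inr z)) * sg K (F.o (Sum.inl q)) * (s * m z z) = _
          rw [hV]
          ring
        rw [Finset.sum_congr rfl fun q _ => e4 q, Finset.sum_const, Finset.card_univ,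
          nsmul_eq_mul]
        ring
      · refine Finset.sum_congr rfl fun y _ => ?_
        have := h4 (z, y) (z, y)
        rw [this]
    rw [Finset.sum_congr rfl fun p _ => e1 p, Finset.sum_congr rfl fun z _ => e3 z,
      Finset.sum_const, Finset.card_univ, nsmul_eq_mul, Finset.sum_add_distrib,
      Finset.sum_neg_distrib, ← Finset.mul_sum, ← Finset.mul_sum, Fintype.sum_prod_type]
    ring
  · intro p
    unfold pt2
    rw [Matrix.of_apply, Fintype.sum_sum_type]
    have e2 : ∑ q : V, sg K (F.o (Sum.inl q)) * g (Sum.inl p, Sum.inl q) (Sum.inl p, Sum.inl q) =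
        0 := Finset.sum_eq_zero fun q _ => by rw [h1, mul_zero]
    rw [e2, zero_add, Finset.mul_sum]
    refine Finset.sum_congr rfl fun y _ => ?_
    rw [h2]
    ring

end Pool.Agent.H47.NL
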